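import Pool.Agent.Helper69.MF.StA

/-! Project MF (MP_9583f0_gt), module FLD (helper10): folding does not change the homotopy class. -/

set_option autoImplicit false

namespace Pool.Agent.Helper10.MF

open Set Topology Filter MeasureTheory
open Pool.Agent.Helper31.CY Pool.Agent.Helper69.MF

theorem nv0 (φ : ℝ) : nv φ 0 = -Real.sin φ := by simp [nv, pt]
theorem nv1 (φ : ℝ) : nv φ 1 = Real.cos φ := by simp [nv, pt]
theorem nv2 (φ : ℝ) : nv φ 2 = 0 := by simp [nv, pt]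

theorem dtn (φ : ℝ) (x : E3) : dt x (nv φ) = -(x 0 * Real.sin φ) + x 1 * Real.cos φ := by
  unfold dt; rw [nv0, nv1, nv2]; ring

theorem f0 (φ : ℝ) (x : E3) : (fold φ x) 0 = x 0 + 2 * min (dt x (nv φ)) 0 * Real.sin φ := by
  unfold fold; simp only [PiLp.sub_apply, PiLp.smul_apply, smul_eq_mul, nv0]; ring
theorem f1 (φ : ℝ) (x : E3) : (fold φ x) 1 = x 1 - 2 * min (dt x (nv φ)) 0 * Real.cos φ := by
  unfold fold; simp only [PiLp.sub_apply, PiLp.smul_apply, smul_eq_mul, nv1]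
theorem f2 (φ : ℝ) (x : E3) : (fold φ x) 2 = x 2 := by
  unfold fold; simp only [PiLp.sub_apply, PiLp.smul_apply, smul_eq_mul, nv2]; ring

theorem minsq (d : ℝ) : min d 0 * d = min d 0 ^ 2 := by
  rcases le_total d 0 with h | h
  · rw [min_eq_left h]; ring
  · rw [min_eq_right h]; ring

theorem fsq (φ : ℝ) (x : E3) : (fold φ x) 0 ^ 2 + (fold φ x) 1 ^ 2 = x 0 ^ 2 + x 1 ^ 2 := by
  have h1 := minsq (dt x (nv φ))
  have h2 := dtn φ x
  have h3 := Real.sin_sq_add_cos_sq φ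
  rw [f0, f1]
  generalize dt x (nv φ) = d at h1 h2 ⊢
  generalize min d 0 = m at h1 ⊢
  linear_combination 4 * m ^ 2 * h3 - 4 * h1 + 4 * m * h2

theorem rad_fold (φ : ℝ) (x : E3) : rad (fold φ x) = rad x := by
  unfold rad; rw [fsq]

theorem mem_fold (φ r h : ℝ) (x : E3) : fold φ x ∈ circ r h ↔ x ∈ circ r h := by
  unfold circ
  rw [Set.mem_ofPred_eq, Set.mem_ofPred_eq, fsq, f2]

theorem cont_c (i : Fin 3) : Continuous (fun x : E3 => x i) := by fun_prop

theorem cont_dt (v : E3) : Continuous (fun x : E3 => dt x v) := by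
  unfold dt
  exact (((cont_c 0).mul continuous_const).add ((cont_c 1).mul continuous_const)).add
    ((cont_c 2).mul continuous_const)

theorem cont_fold (φ : ℝ) : Continuous (fold φ) := by
  unfold fold
  exact continuous_id.sub ((continuous_const.mul ((cont_dt _).min continuous_const)).smul continuous_const)

theorem cont_rad : Continuous rad := by
  unfold rad
  exact Real.continuous_sqrt.comp (((cont_c 0).pow 2).add ((cont_c 1).pow 2))

theorem fold_nn (φ : ℝ) (x : E3) : 0 ≤ -((fold φ x) 0 * Real.sin φ) + (fold φ x) 1 * Real.cos φ := by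
  have h2 := dtn φ x
  have h3 := Real.sin_sq_add_cos_sq φ
  rw [f0, f1]
  have h4 : -((x 0 + 2 * min (dt x (nv φ)) 0 * Real.sin φ) * Real.sin φ) +
      (x 1 - 2 * min (dt x (nv φ)) 0 * Real.cos φ) * Real.cos φ = dt x (nv φ) - 2 * min (dt x (nv φ)) 0 := by
    linear_combination (-2 * min (dt x (nv φ)) 0) * h3 - h2
  rw [h4]
  rcases le_total (dt x (nv φ)) 0 with h | h
  · rw [min_eq_left h]; linarith
  · rw [min_eq_right h]; linarith

/-- polar form in the half plane -/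
theorem polar (φ a b ρ : ℝ) (hρ : 0 < ρ) (h : a ^ 2 + b ^ 2 = ρ ^ 2)
    (hn : 0 ≤ -(a * Real.sin φ) + b * Real.cos φ) :
    a = ρ * Real.cos (φ + Real.arccos ((a * Real.cos φ + b * Real.sin φ) / ρ)) ∧
    b = ρ * Real.sin (φ + Real.arccos ((a * Real.cos φ + b * Real.sin φ) / ρ)) := by
  have h3 := Real.sin_sq_add_cos_sq φ
  set A := a * Real.cos φ + b * Real.sin φ with hA
  set B := -(a * Real.sin φ) + b * Real.cos φ with hB
  have hAB : A ^ 2 + B ^ 2 = ρ ^ 2 := by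
    rw [hA, hB]
    linear_combination (a ^ 2 + b ^ 2) * h3 + h
  have hA1 : -1 ≤ A / ρ := by
    rw [le_div_iff₀ hρ]
    nlinarith [sq_nonneg B, abs_le_of_sq_le_sq' (show A ^ 2 ≤ ρ ^ 2 by nlinarith [sq_nonneg B]) hρ.le]
  have hA2 : A / ρ ≤ 1 := by
    rw [div_le_iff₀ hρ]
    nlinarith [sq_nonneg B, abs_le_of_sq_le_sq' (show A ^ 2 ≤ ρ ^ 2 by nlinarith [sq_nonneg B]) hρ.le]
  have hc : Real.cos (Real.arccos (A / ρ)) = A / ρ := Real.cos_arccos hA1 hA2
  have hs : Real.sin (Real.arccos (A / ρ)) = B / ρ := by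
    rw [Real.sin_arccos]
    have : 1 - (A / ρ) ^ 2 = (B / ρ) ^ 2 := by
      field_simp
      linarith
    rw [this, Real.sqrt_sq (div_nonneg hn hρ.le)]
  rw [Real.cos_add, Real.sin_add, hc, hs]
  constructor
  · have : ρ * (Real.cos φ * (A / ρ) - Real.sin φ * (B / ρ)) = Real.cos φ * A - Real.sin φ * B := by
      field_simp
    rw [this, hA, hB]
    linear_combination (-a) * h3
  · have : ρ * (Real.sin φ * (A / ρ) + Real.cos φ * (B / ρ)) = Real.sin φ * A + Real.cos φ * B := by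
      field_simp
    rw [this, hA, hB]
    linear_combination (-b) * h3

theorem hFLD : StHTE → StGEN → StANG → StFLD := by
  intro hHTE hGEN hANG r0 r1 h φ h0 h1 hh γ hγ
  set Γ := circ r0 0 ∪ circ r1 h with hΓ
  obtain ⟨_, hsym, htr, hlp, _, hmap⟩ := hHTE Γ
  have hfΓ : ∀ x, x ∉ Γ → fold φ x ∉ Γ := by
    intro x hx hc
    apply hx
    rw [hΓ] at hc ⊢
    rcases hc with hc | hc
    · exact Or.inl ((mem_fold φ r0 0 x).1 hc)
    · exact Or.inr ((mem_fold φ r1 h x).1 hc)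
  obtain ⟨γ1, g1, g2, g3, g4⟩ := hGEN r0 r1 h h0 h1 hh γ hγ
  have l1 : Lp Γ γ1 := hlp _ _ g1
  have g5 : Hot Γ (fun s => fold φ (γ s)) (fun s => fold φ (γ1 s)) := hmap (fold φ) γ γ1 (cont_fold φ) hfΓ g1
  have l2 : Lp Γ (fun s => fold φ (γ1 s)) := hlp _ _ g5
  have a1 := hANG r0 r1 h h0 h1 hh γ1 l1 g2 (Or.inr ⟨g3, g4⟩)
  have a2 := hANG r0 r1 h h0 h1 hh (fun s => fold φ (γ1 s)) l2 (fun s => by rw [rad_fold]; exact g2 s)
    (Or.inl ⟨fun s => φ + Real.arccos (((fold φ (γ1 s)) 0 * Real.cos φ + (fold φ (γ1 s)) 1 * Real.sin φ) /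
      rad (γ1 s)), ?_, ?_, ?_⟩)
  · have e : (fun s => pt (rad (fold φ (γ1 s))) 0 ((fold φ (γ1 s)) 2)) = (fun s => pt (rad (γ1 s)) 0 ((γ1 s) 2)) := by
      funext s
      rw [rad_fold, f2]
    rw [e] at a2
    exact htr _ _ _ (htr _ _ _ g1 a1) (htr _ _ _ (hsym _ _ a2) (hsym _ _ g5))
  · have c0 : Continuous (fun s => (fold φ (γ1 s)) 0) := (cont_c 0).comp l2.1
    have c1 : Continuous (fun s => (fold φ (γ1 s)) 1) := (cont_c 1).comp l2.1
    have cr : Continuous (fun s => rad (γ1 s)) := cont_rad.comp l1.1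
    exact continuous_const.add (Real.continuous_arccos.comp
      (((c0.mul continuous_const).add (c1.mul continuous_const)).div cr (fun s => (g2 s).ne')))
  · simp only [l1.2.1]
  · intro s
    have hp := polar φ ((fold φ (γ1 s)) 0) ((fold φ (γ1 s)) 1) (rad (γ1 s)) (g2 s) (by
      rw [fsq]; unfold rad; rw [Real.sq_sqrt (by positivity)]) (fold_nn φ (γ1 s))
    rw [rad_fold, ← hp.1, ← hp.2]
    ext i
    fin_cases i <;> simp [pt]

end Pool.Agent.Helper10.MF
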